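import Pool.Agent.Helper65.NQ.Four

/-!
# NQ: characters, product distributions and Fourier sampling
-/

set_option autoImplicit false

namespace Pool.Agent.Helper13.NQ

open Finset
open Pool.Agent.Helper67.EQP (sum_prod_eq sg pm pm_prod_fun mext mext_def mext_sum mext_mul_left
  sg_mul_self sum_bool_mean)
open Pool.Agent.Helper65.NQ

variable {J : Type} [Fintype J]

theorem chi_xor_right (u x y : J → Bool) :
    chi u (fun j => xor (x j) (y j)) = chi u x * chi u y := by
  rw [chi_comm, chi_xor, chi_comm x, chi_comm y]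

variable [DecidableEq J]

/-- factor of the character `u` under independent bits with means `δ` -/
noncomputable def fac (δ : J → ℝ) (u : J → Bool) : ℝ := ∏ j, if u j then δ j else 1

theorem fac_mul (δ δ' : J → ℝ) (u : J → Bool) :
    fac (fun j => δ j * δ' j) u = fac δ u * fac δ' u := by
  unfold fac
  rw [← prod_mul_distrib]
  refine prod_congr rfl fun j _ => ?_
  split_ifs <;> ring

/-- expectation of a character -/
theorem mext_chi (δ : J → ℝ) (u : J → Bool) : mext δ (fun c => chi u c) = fac δ u := by
  unfold mext chi fac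
  rw [pm_prod_fun (fun j b => (1 + sg b * δ j) / 2) (fun j b => if u j && b then (-1 : ℝ) else 1)]
  refine prod_congr rfl fun j _ => ?_
  rw [Fintype.sum_bool]
  cases u j <;> simp <;> ring

/-- the Fourier transform of the squares of the Fourier coefficients -/
theorem sum_fh_sq_chi (f : (J → Bool) → Bool) (u : J → Bool) :
    ∑ k, fh f k ^ 2 * chi u k =
      (∑ x, sg (f x) * sg (f (fun j => xor (x j) (u j)))) / 2 ^ Fintype.card J := by
  have h1 : ∀ k, fh f k ^ 2 * chi u k =
      (∑ x, fh f k * chi (fun j => xor (x j) (u j)) k * sg (f x)) / 2 ^ Fintype.card J := by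
    intro k
    rw [sq]
    nth_rw 2 [fh]
    rw [mul_div_assoc', div_mul_eq_mul_div, mul_sum, sum_mul]
    congr 1
    refine sum_congr rfl fun x _ => ?_
    rw [chi_xor]
    ring
  simp_rw [h1]
  rw [← sum_div, sum_comm]
  simp_rw [← sum_mul, ← fh_inv]
  congr 1
  refine sum_congr rfl fun x _ => ?_
  ring

theorem mext_fh_chi (δ : J → ℝ) (f : (J → Bool) → Bool) (u : J → Bool) :
    mext δ (fun c => ∑ k, fh f k ^ 2 * chi u (fun j => xor (k j) (c j))) =
      fac δ u * ((∑ x, sg (f x) * sg (f (fun j => xor (x j) (u j)))) / 2 ^ Fintype.card J) := by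
  rw [mext_sum univ δ (fun k c => fh f k ^ 2 * chi u (fun j => xor (k j) (c j)))]
  simp_rw [chi_xor_right]
  rw [← sum_fh_sq_chi f u, mul_sum]
  refine sum_congr rfl fun k _ => ?_
  have h : (fun c : J → Bool => fh f k ^ 2 * (chi u k * chi u c)) =
      fun c => (fh f k ^ 2 * chi u k) * chi u c := by
    funext c
    ring
  rw [h, mext_mul_left, mext_chi]
  ring

/-- every function is a combination of characters -/
theorem eq_sum_chi (G : (J → Bool) → ℝ) (y : J → Bool) :
    G y = ∑ u, (∑ x, G x * chi u x) / 2 ^ Fintype.card J * chi u y := by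
  simp_rw [div_mul_eq_mul_div]
  rw [← sum_div]
  simp_rw [sum_mul]
  rw [sum_comm]
  have h1 : ∀ x : J → Bool, ∑ u, G x * chi u x * chi u y =
      if x = y then G x * 2 ^ Fintype.card J else 0 := by
    intro x
    simp_rw [mul_assoc]
    rw [← mul_sum]
    have h2 : ∀ u : J → Bool, chi u x * chi u y = chi x u * chi y u := fun u => by
      rw [chi_comm u x, chi_comm u y]
    simp_rw [h2]
    rw [sum_chi_mul]
    split_ifs <;> simp
  simp_rw [h1]
  rw [sum_ite_eq' univ y, if_pos (mem_univ y)]
  field_simp

/-- a linear identity for all characters holds for all functions -/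
theorem lin_of_chi {α : Type} [Fintype α] (w : α → ℝ) (t : α → J → Bool) (w' : (J → Bool) → ℝ)
    (h : ∀ u, ∑ a, w a * chi u (t a) = ∑ y, w' y * chi u y) (G : (J → Bool) → ℝ) :
    ∑ a, w a * G (t a) = ∑ y, w' y * G y := by
  have h1 : ∀ a, w a * G (t a) =
      ∑ u, (∑ x, G x * chi u x) / 2 ^ Fintype.card J * (w a * chi u (t a)) := by
    intro a
    rw [eq_sum_chi G (t a), mul_sum]
    refine sum_congr rfl fun u _ => ?_
    ring
  have h2 : ∀ y, w' y * G y =
      ∑ u, (∑ x, G x * chi u x) / 2 ^ Fintype.card J * (w' y * chi u y) := by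
    intro y
    conv_lhs => rw [eq_sum_chi G y, mul_sum]
    refine sum_congr rfl fun u _ => ?_
    ring
  simp_rw [h1, h2]
  rw [sum_comm]
  conv_rhs => rw [sum_comm]
  refine sum_congr rfl fun u _ => ?_
  rw [← mul_sum, ← mul_sum, h u]

end Pool.Agent.Helper13.NQ
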