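import Pool.Agent.Helper13.NQ.Char
import Pool.Agent.Helper74.NQ.Prod

/-!
# NQ: the two transforms of a state and the noise
`corr ρ u = Σ_z ρ(z, z ⊕ u)`, `dg ρ u = Σ_z ρ(z, z) χ_u(z)`.
-/

set_option autoImplicit false
set_option linter.unusedSectionVars false

namespace Pool.Agent.Helper13.NQ

open Finset Function
open Pool.Agent.Helper67.EQP (sg)
open Pool.Agent.Helper65.NQ
open Pool.Agent.Helper74.NQ

variable {W : Type} [Fintype W] [DecidableEq W]

/-- `z ⊕ u` -/
def bx (z u : W → Bool) : W → Bool := fun w => xor (z w) (u w)

/-- off-diagonal transform -/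
noncomputable def corr (ρ : DM W) (u : W → Bool) : ℂ := ∑ z, ρ z (bx z u)

/-- diagonal transform -/
noncomputable def dg (ρ : DM W) (u : W → Bool) : ℂ := ∑ z, ρ z z * ((chi u z : ℝ) : ℂ)

theorem bx_update (z u : W → Bool) (j : W) (b : Bool) (hu : u j = false) :
    bx (update z j b) u = update (bx z u) j b := by
  funext w
  by_cases hw : w = j
  · subst hw
    simp [bx, hu]
  · simp [bx, update_of_ne hw]

theorem chi_update (u z : W → Bool) (j : W) (b : Bool) (hu : u j = false) :
    chi u (update z j b) = chi u z := by
  unfold chi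
  refine prod_congr rfl fun w _ => ?_
  by_cases hw : w = j
  · subst hw
    simp [hu]
  · rw [update_of_ne hw]

/-- flip of one bit -/
theorem chi_flip (u z : W → Bool) (j : W) (hu : u j = true) :
    chi u (update z j (!(z j))) = - chi u z := by
  unfold chi
  rw [← mul_prod_erase univ _ (mem_univ j), ← mul_prod_erase univ _ (mem_univ j)]
  have h1 : ∏ x ∈ univ.erase j, (if u x && update z j (!(z j)) x then (-1 : ℝ) else 1) =
      ∏ x ∈ univ.erase j, (if u x && z x then (-1 : ℝ) else 1) := by
    refine prod_congr rfl fun w hw => ?_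
    rw [update_of_ne (ne_of_mem_erase hw)]
  rw [h1, update_self, hu]
  cases z j <;> simp

/-- flip of the bit `j` as a permutation -/
def flipE (j : W) : (W → Bool) ≃ (W → Bool) where
  toFun z := update z j (!(z j))
  invFun z := update z j (!(z j))
  left_inv z := by simp
  right_inv z := by simp

theorem flipE_apply (j : W) (z : W → Bool) : flipE j z = update z j (!(z j)) := rfl

/-- averaging over one bit -/
theorem sum_avg (F : (W → Bool) → ℂ) (j : W) :
    ∑ z, (F (update z j false) + F (update z j true)) / 2 = ∑ z, F z := by
  have h1 : ∀ z : W → Bool, F (update z j false) + F (update z j true) = F z + F (flipE j z) := by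
    intro z
    rw [flipE_apply]
    cases h : z j
    · have : update z j false = z := by rw [← h, update_eq_self]
      rw [this]
      simp
    · have : update z j true = z := by rw [← h, update_eq_self]
      rw [this]
      simp only [Bool.not_true]
      ring
  simp_rw [h1]
  rw [← sum_div, sum_add_distrib, Equiv.sum_comp (flipE j) F]
  ring

theorem corr_depol (lam : ℝ) (j : W) (ρ : DM W) (u : W → Bool) :
    corr (depol lam j ρ) u = (if u j = true then (1 - lam : ℂ) else 1) * corr ρ u := by
  unfold corr depol
  cases hu : u j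
  · have h1 : ∀ z : W → Bool, z j = bx z u j := by
      intro z
      simp [bx, hu]
    simp_rw [if_pos (h1 _)]
    have h2 : ∀ z : W → Bool, (ρ (update z j false) (update (bx z u) j false) +
        ρ (update z j true) (update (bx z u) j true)) / 2 =
        ((fun z => ρ z (bx z u)) (update z j false) + (fun z => ρ z (bx z u)) (update z j true)) / 2 := by
      intro z
      simp only [bx_update z u j _ hu]
    simp_rw [h2]
    rw [sum_add_distrib, ← mul_sum, ← mul_sum, sum_avg (fun z => ρ z (bx z u)) j]
    simp only [Bool.false_eq_true, if_false]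
    ring
  · have h1 : ∀ z : W → Bool, z j ≠ bx z u j := by
      intro z
      simp [bx, hu]
    simp_rw [if_neg (h1 _)]
    rw [sum_add_distrib, ← mul_sum]
    simp

theorem dg_depol (lam : ℝ) (j : W) (ρ : DM W) (u : W → Bool) :
    dg (depol lam j ρ) u = (if u j = true then (1 - lam : ℂ) else 1) * dg ρ u := by
  unfold dg depol
  simp only [if_true]
  cases hu : u j
  · have h2 : ∀ z : W → Bool, ((1 - (lam : ℂ)) * ρ z z + (lam : ℂ) * ((ρ (update z j false) (update z j false) +
        ρ (update z j true) (update z j true)) / 2)) * ((chi u z : ℝ) : ℂ) =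
        (1 - (lam : ℂ)) * (ρ z z * ((chi u z : ℝ) : ℂ)) + (lam : ℂ) *
        (((fun z => ρ z z * ((chi u z : ℝ) : ℂ)) (update z j false) +
          (fun z => ρ z z * ((chi u z : ℝ) : ℂ)) (update z j true)) / 2) := by
      intro z
      simp only [chi_update u z j _ hu]
      ring
    simp_rw [h2]
    rw [sum_add_distrib, ← mul_sum, ← mul_sum, sum_avg (fun z => ρ z z * ((chi u z : ℝ) : ℂ)) j]
    simp only [Bool.false_eq_true, if_false]
    ring
  · have h2 : ∀ z : W → Bool, ((1 - (lam : ℂ)) * ρ z z + (lam : ℂ) * ((ρ (update z j false) (update z j false) +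
        ρ (update z j true) (update z j true)) / 2)) * ((chi u z : ℝ) : ℂ) =
        (1 - (lam : ℂ)) * (ρ z z * ((chi u z : ℝ) : ℂ)) + (lam : ℂ) *
        (((ρ (update z j false) (update z j false) +
          ρ (update z j true) (update z j true)) / 2) * ((chi u z : ℝ) : ℂ)) := by
      intro z
      ring
    simp_rw [h2]
    have h3 : ∑ z : W → Bool, ((ρ (update z j false) (update z j false) +
          ρ (update z j true) (update z j true)) / 2) * ((chi u z : ℝ) : ℂ) = 0 := by
      have h4 := Equiv.sum_comp (flipE j) (fun z : W → Bool => ((ρ (update z j false) (update z j false) +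
          ρ (update z j true) (update z j true)) / 2) * ((chi u z : ℝ) : ℂ))
      have h5 : ∀ z : W → Bool, (fun z : W → Bool => ((ρ (update z j false) (update z j false) +
          ρ (update z j true) (update z j true)) / 2) * ((chi u z : ℝ) : ℂ)) (flipE j z) =
          - (((ρ (update z j false) (update z j false) +
          ρ (update z j true) (update z j true)) / 2) * ((chi u z : ℝ) : ℂ)) := by
        intro z
        simp only [flipE_apply, update_idem, chi_flip u z j hu]
        push_cast
        ring
      simp_rw [h5] at h4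
      rw [sum_neg_distrib] at h4
      exact self_eq_neg.mp h4.symm
    rw [sum_add_distrib, ← mul_sum, ← mul_sum, h3]
    simp

theorem corr_depolAll (lam : W → ℝ) (ρ : DM W) (u : W → Bool) :
    corr (depolAll lam ρ) u = ((fac (fun w => 1 - lam w) u : ℝ) : ℂ) * corr ρ u := by
  have key : ∀ L : List W, corr (L.foldr (fun j σ => depol (lam j) j σ) ρ) u =
      (L.map fun j => (if u j = true then (1 - lam j : ℂ) else 1)).prod * corr ρ u := by
    intro L
    induction L with
    | nil => simp
    | cons a L ih =>
      rw [List.foldr_cons, corr_depol, ih, List.map_cons, List.prod_cons]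
      ring
  unfold depolAll fac
  rw [key, prod_map_toList univ (fun j => (if u j = true then (1 - lam j : ℂ) else 1))]
  push_cast
  congr 1
  refine prod_congr rfl fun j _ => ?_
  split_ifs <;> simp

theorem dg_depolAll (lam : W → ℝ) (ρ : DM W) (u : W → Bool) :
    dg (depolAll lam ρ) u = ((fac (fun w => 1 - lam w) u : ℝ) : ℂ) * dg ρ u := by
  have key : ∀ L : List W, dg (L.foldr (fun j σ => depol (lam j) j σ) ρ) u =
      (L.map fun j => (if u j = true then (1 - lam j : ℂ) else 1)).prod * dg ρ u := by
    intro L
    induction L with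
    | nil => simp
    | cons a L ih =>
      rw [List.foldr_cons, dg_depol, ih, List.map_cons, List.prod_cons]
      ring
  unfold depolAll fac
  rw [key, prod_map_toList univ (fun j => (if u j = true then (1 - lam j : ℂ) else 1))]
  push_cast
  congr 1
  refine prod_congr rfl fun j _ => ?_
  split_ifs <;> simp

/-- the last layer: Hadamard gates on a set of qubits which contains the support of `u` -/
theorem dg_gates (A : List Bool → Bool) (g : W → Matrix Bool Bool ℂ) (ρ : DM W) (u : W → Bool)
    (hg : ∀ w, g w = gH ∨ (g w = gI ∧ u w = false)) :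
    dg ((Step.gates g).app A ρ) u = corr ρ u := by
  have h1 : ∀ a b : W → Bool, ∑ z : W → Bool, tens g z a * (starRingEnd ℂ) (tens g z b) *
      ((chi u z : ℝ) : ℂ) = if b = bx a u then 1 else 0 := by
    intro a b
    have h2 : ∀ z : W → Bool, tens g z a * (starRingEnd ℂ) (tens g z b) * ((chi u z : ℝ) : ℂ) =
        ∏ w, (g w (z w) (a w) * (starRingEnd ℂ) (g w (z w) (b w)) *
          (if u w && z w then (-1 : ℂ) else 1)) := by
      intro z
      rw [tens_apply, tens_apply, map_prod]
      unfold chi
      push_cast
      rw [← prod_mul_distrib, ← prod_mul_distrib]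
      refine prod_congr rfl fun w _ => ?_
      congr 1
      split_ifs <;> simp
    simp_rw [h2]
    have h3 := (Finset.prod_univ_sum (fun _ : W => (univ : Finset Bool))
      (fun w c => g w c (a w) * (starRingEnd ℂ) (g w c (b w)) * (if u w && c then (-1 : ℂ) else 1))).symm
    rw [Fintype.piFinset_univ] at h3
    rw [h3]
    have h4 : ∀ w, ∑ c : Bool, g w c (a w) * (starRingEnd ℂ) (g w c (b w)) *
        (if u w && c then (-1 : ℂ) else 1) = if b w = bx a u w then 1 else 0 := by
      intro w
      have hs := sqrt2_ne
      have h2 := sqrt2_mul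
      rcases hg w with h | ⟨h, hu⟩
      · rw [h, Fintype.sum_bool]
        unfold gH bx
        cases a w <;> cases b w <;> cases u w <;> simp <;> field_simp <;> rw [sq, h2] <;> norm_num
      · rw [h, Fintype.sum_bool]
        unfold gI bx
        cases a w <;> cases b w <;> simp [hu]
    simp_rw [h4]
    split_ifs with hb
    · subst hb
      simp
    · have : ∃ w, b w ≠ bx a u w := by
        by_contra hc
        push Not at hc
        exact hb (funext hc)
      obtain ⟨w, hw⟩ := this
      exact prod_eq_zero (mem_univ w) (if_neg hw)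
  have h0 : ∀ z : W → Bool, (Step.gates g).app A ρ z z * ((chi u z : ℝ) : ℂ) =
      ∑ a, ∑ b, ρ a b * (tens g z a * (starRingEnd ℂ) (tens g z b) * ((chi u z : ℝ) : ℂ)) := by
    intro z
    change (tens g * ρ * (tens g).conjTranspose) z z * ((chi u z : ℝ) : ℂ) = _
    rw [Matrix.mul_apply, sum_mul, sum_comm]
    refine sum_congr rfl fun b _ => ?_
    rw [Matrix.mul_apply, sum_mul, sum_mul]
    refine sum_congr rfl fun a _ => ?_
    rw [Matrix.conjTranspose_apply]
    change tens g z a * ρ a b * (starRingEnd ℂ) (tens g z b) * _ = _
    ring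
  unfold dg corr
  simp_rw [h0]
  rw [sum_comm]
  refine sum_congr rfl fun a _ => ?_
  rw [sum_comm]
  simp_rw [← mul_sum, h1, mul_ite, mul_one, mul_zero]
  rw [sum_ite_eq' univ (bx a u), if_pos (mem_univ _)]

end Pool.Agent.Helper13.NQ
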