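import Pool.Agent.Helper74.NQ.Bridge
import Pool.Agent.Helper74.NQ.Law
import Pool.Agent.Helper65.NQ.Round

/-!
# NQ: sizes of the classes of qubits and the probability of a decoding error
-/

set_option autoImplicit false

namespace Pool.Agent.Helper13.NQ

open Finset
open Pool.Agent.Helper67.EQP (sg mext mext_mono mext_mul_left mext_const mext_add)
open Pool.Agent.Helper65.NQ (dec_error one_sub_pow_le)
open Pool.Agent.Helper74.NQ Pool.Agent.Helper80.NQ

/-- residue classes are large -/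
theorem card_res {n s j : ℕ} (hj : j < s) :
    n / s ≤ (univ.filter fun i : Fin n => i.1 % s = j).card := by
  have h1 : ∀ t : Fin (n / s), j + s * t.1 < n := by
    intro t
    have h2 : s * (t.1 + 1) ≤ s * (n / s) := Nat.mul_le_mul_left s t.2
    have h3 := Nat.mul_div_le n s
    have h4 : s * (t.1 + 1) = s * t.1 + s := by ring
    omega
  have h2 := card_le_card_of_injOn (s := (univ : Finset (Fin (n / s))))
    (t := univ.filter fun i : Fin n => i.1 % s = j) (fun t => ⟨j + s * t.1, h1 t⟩) (fun t _ => by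
      rw [mem_coe, mem_filter]
      refine ⟨mem_univ _, ?_⟩
      show (j + s * t.1) % s = j
      rw [Nat.add_mul_mod_self_left, Nat.mod_eq_of_lt hj]) (fun t _ t' _ h => by
      have h3 : j + s * t.1 = j + s * t'.1 := congrArg Fin.val h
      have h4 : s * t.1 = s * t'.1 := by omega
      have h5 : 0 < s := by omega
      exact Fin.ext (Nat.eq_of_mul_eq_mul_left h5 h4))
  rwa [card_univ, Fintype.card_fin] at h2

theorem M_ge {p M : ℕ} {r : ℝ} (h0 : 0 ≤ r) (h1 : r ≤ 1)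
    (h : 16 * ((p : ℝ) + 1) ≤ (1 - r) ^ 8 * M) : 16 * (p + 1) ≤ M := by
  have h2 : (1 - r) ^ 8 ≤ 1 := pow_le_one₀ (by linarith) (by linarith)
  have h3 : (1 - r) ^ 8 * M ≤ 1 * M := mul_le_mul_of_nonneg_right h2 (Nat.cast_nonneg M)
  rw [one_mul] at h3
  exact_mod_cast h.trans h3

theorem pair_ge {p M : ℕ} (h : p < M) : M * M ≤ Nat.pair p M := by
  unfold Nat.pair
  rw [if_pos h]
  omega

variable {κ : List Bool} {M : ℕ}

theorem size_ge (hM : 16 * (κ.length + 1) ≤ M) : 13 * κ.length + 20 ≤ size κ M := by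
  have h1 := pair_ge (p := κ.length) (M := M) (by omega)
  unfold size
  nlinarith

theorem cls_eq (κ : List Bool) : cls κ = 9 * κ.length + 14 := by
  have h : Pool.Agent.Helper67.EQP.par κ = 4 * κ.length + 4 := rfl
  unfold cls
  omega

theorem cls_le (hM : 16 * (κ.length + 1) ≤ M) : cls κ ≤ M := by
  rw [cls_eq]
  omega

theorem two_M_le (hM : 16 * (κ.length + 1) ≤ M) : 2 * M ≤ size κ M / cls κ := by
  rw [Nat.le_div_iff_mul_le (cls_pos κ)]
  have h1 := pair_ge (p := κ.length) (M := M) (by omega)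
  have h2 : 2 * M * cls κ ≤ 2 * M * M := Nat.mul_le_mul_left _ (cls_le hM)
  unfold size
  linarith [mul_assoc 2 M M]

theorem two_M_le_clB (hM : 16 * (κ.length + 1) ≤ M)
    (j : Fin (2 * Pool.Agent.Helper67.EQP.par κ + 6)) :
    2 * M ≤ (univ.filter fun i : Bd κ M => clB κ M i = j).card := by
  rw [card_clB]
  refine (two_M_le hM).trans (card_res ?_)
  have := j.2
  unfold cls
  omega

theorem two_M_le_clH (hM : 16 * (κ.length + 1) ≤ M) (j : Fin κ.length) :
    2 * M ≤ (univ.filter fun i : Hd κ M => clH κ M i = j).card := by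
  rw [card_clH]
  refine (two_M_le hM).trans (card_res ?_)
  have := j.2
  unfold cls
  omega

theorem clB_surj (hM : 16 * (κ.length + 1) ≤ M) : Function.Surjective (clB κ M) := by
  intro j
  have h1 := two_M_le_clB hM j
  have h2 : 0 < (univ.filter fun i : Bd κ M => clB κ M i = j).card := by omega
  obtain ⟨i, hi⟩ := card_pos.mp h2
  exact ⟨i, (mem_filter.mp hi).2⟩

/-- the lower bound for the bias of every bit -/
noncomputable def th0 (κ : List Bool) (M : ℕ) : ℝ := Real.sqrt (16 * ((κ.length : ℝ) + 1) / M)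

theorem x_nonneg (κ : List Bool) (M : ℕ) : 0 ≤ 16 * ((κ.length : ℝ) + 1) / M := by positivity

theorem x_le {r : ℝ} (hM : 16 * (κ.length + 1) ≤ M)
    (h : 16 * ((κ.length : ℝ) + 1) ≤ (1 - r) ^ 8 * M) :
    16 * ((κ.length : ℝ) + 1) / M ≤ (1 - r) ^ 8 := by
  have h1 : (0 : ℝ) < M := by
    have : 0 < M := by omega
    exact_mod_cast this
  rw [div_le_iff₀ h1]
  exact h

theorem th0_nonneg (κ : List Bool) (M : ℕ) : 0 ≤ th0 κ M := Real.sqrt_nonneg _

theorem th0_le_one (hM : 16 * (κ.length + 1) ≤ M) : th0 κ M ≤ 1 := by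
  have h1 : (0 : ℝ) < M := by
    have : 0 < M := by omega
    exact_mod_cast this
  unfold th0
  rw [Real.sqrt_le_one, div_le_one h1]
  exact_mod_cast hM

theorem th0_le4 {x a b c d : ℝ} (hx : 0 ≤ x) (ha : 0 ≤ a) (hb : 0 ≤ b) (hc : 0 ≤ c) (hd : 0 ≤ d)
    (h1 : x ≤ a ^ 8) (h2 : x ≤ b ^ 8) (h3 : x ≤ c ^ 8) (h4 : x ≤ d ^ 8) :
    Real.sqrt x ≤ a * b * (c * d) := by
  rw [Real.sqrt_le_iff]
  refine ⟨by positivity, ?_⟩
  have h5 : x ^ 4 ≤ ((a * b * (c * d)) ^ 2) ^ 4 := by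
    calc x ^ 4 = (x * x) * (x * x) := by ring
      _ ≤ (a ^ 8 * b ^ 8) * (c ^ 8 * d ^ 8) := by gcongr
      _ = ((a * b * (c * d)) ^ 2) ^ 4 := by ring
  exact (pow_le_pow_iff_left₀ hx (by positivity) (by norm_num)).mp h5

theorem th0_le2 {x a b : ℝ} (hx : 0 ≤ x) (ha : 0 ≤ a) (hb : 0 ≤ b) (ha1 : a ≤ 1) (hb1 : b ≤ 1)
    (h1 : x ≤ a ^ 8) (h2 : x ≤ b ^ 8) : Real.sqrt x ≤ a * b := by
  have h3 := th0_le4 hx ha hb ha hb h1 h2 h1 h2
  have h4 : a * b ≤ 1 := mul_le_one₀ ha1 hb hb1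
  have h5 : 0 ≤ a * b := mul_nonneg ha hb
  nlinarith

/-- the bound for the decoding error -/
theorem num_bound (hM : 16 * (κ.length + 1) ≤ M) :
    (cls κ : ℝ) * (1 - th0 κ M ^ 2 / 4) ^ (2 * M) ≤ 1 / 64 := by
  have h1 : (0 : ℝ) < M := by
    have : 0 < M := by omega
    exact_mod_cast this
  have h2 : th0 κ M ^ 2 = 16 * ((κ.length : ℝ) + 1) / M := Real.sq_sqrt (x_nonneg κ M)
  have h3 : th0 κ M ^ 2 / 4 ≤ 1 := by
    have := th0_le_one (κ := κ) hM
    have := th0_nonneg κ M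
    nlinarith
  have h4 := one_sub_pow_le h3 (2 * M)
  have h5 : ((2 * M : ℕ) : ℝ) * (th0 κ M ^ 2 / 4) = 8 * ((κ.length : ℝ) + 1) := by
    rw [h2]
    push_cast
    field_simp
    ring
  rw [h5] at h4
  have h6 : (cls κ : ℝ) = 9 * κ.length + 14 := by
    rw [cls_eq]
    push_cast
    ring
  have h7 : 64 * (9 * (κ.length : ℝ) + 14) ≤ Real.exp (8 * ((κ.length : ℝ) + 1)) := by
    have h8 : (1000 : ℝ) ≤ Real.exp 8 := by
      have h9 : Real.exp 8 = Real.exp 1 ^ 8 := by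
        rw [← Real.exp_nat_mul]
        norm_num
      rw [h9]
      have h10 : (2.7 : ℝ) ≤ Real.exp 1 := by
        have := Real.exp_one_gt_d9
        linarith
      calc (1000 : ℝ) ≤ 2.7 ^ 8 := by norm_num
        _ ≤ Real.exp 1 ^ 8 := pow_le_pow_left₀ (by norm_num) h10 8
    have h9 : Real.exp (8 * ((κ.length : ℝ) + 1)) = Real.exp 8 ^ (κ.length + 1) := by
      rw [← Real.exp_nat_mul]
      congr 1
      push_cast
      ring
    rw [h9]
    have h10 := one_add_mul_le_pow (a := (999 : ℝ)) (by norm_num) (κ.length + 1)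
    have h11 : (1 + 999 : ℝ) ^ (κ.length + 1) ≤ Real.exp 8 ^ (κ.length + 1) :=
      pow_le_pow_left₀ (by norm_num) (by linarith) _
    have h12 : (0 : ℝ) ≤ κ.length := Nat.cast_nonneg _
    push_cast at h10
    nlinarith
  have h8 : 0 < Real.exp (8 * ((κ.length : ℝ) + 1)) := Real.exp_pos _
  calc (cls κ : ℝ) * (1 - th0 κ M ^ 2 / 4) ^ (2 * M)
      ≤ (9 * κ.length + 14) * Real.exp (-(8 * ((κ.length : ℝ) + 1))) := by
        rw [h6]
        exact mul_le_mul_of_nonneg_left h4 (by positivity)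
    _ ≤ 1 / 64 := by
        rw [Real.exp_neg, ← div_eq_mul_inv, div_le_div_iff₀ h8 (by norm_num)]
        linarith

/-- the header bits are decoded correctly -/
def HGood (a : Hd κ M → Bool) : Prop := ∀ j : Fin κ.length,
  (univ.filter fun i : Hd κ M => clH κ M i = j ∧ a i = true).card <
    (univ.filter fun i : Hd κ M => clH κ M i = j ∧ a i = false).card

/-- the body bits are decoded correctly -/
def BGood (c : Bd κ M → Bool) : Prop := ∀ j : Fin (2 * Pool.Agent.Helper67.EQP.par κ + 6),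
  (univ.filter fun i : Bd κ M => clB κ M i = j ∧ c i = true).card <
    (univ.filter fun i : Bd κ M => clB κ M i = j ∧ c i = false).card

/-- the biases of the flips of the header bits -/
noncomputable def hl (lam : ℕ → Qb κ M → ℝ) (i : Hd κ M) : ℝ :=
  (1 - lam 0 (Sum.inl i)) * (1 - lam 1 (Sum.inl i))

/-- the condition on the rates -/
def Rates (κ : List Bool) (M : ℕ) (lam : ℕ → Qb κ M → ℝ) : Prop :=
  ∀ q, ∀ p < 4, 0 ≤ lam p q ∧ lam p q ≤ 1 ∧ 16 * ((κ.length : ℝ) + 1) ≤ (1 - lam p q) ^ 8 * M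

theorem Rates.M_ge {lam : ℕ → Qb κ M → ℝ} (h : Rates κ M lam) : 16 * (κ.length + 1) ≤ M := by
  obtain ⟨h1, h2, h3⟩ := h (Sum.inr (Sum.inr ())) 0 (by norm_num)
  exact Pool.Agent.Helper13.NQ.M_ge h1 h2 h3

theorem Rates.th_hl {lam : ℕ → Qb κ M → ℝ} (h : Rates κ M lam) (i : Hd κ M) :
    th0 κ M ≤ hl lam i := by
  obtain ⟨a1, a2, a3⟩ := h (Sum.inl i) 0 (by norm_num)
  obtain ⟨b1, b2, b3⟩ := h (Sum.inl i) 1 (by norm_num)
  exact th0_le2 (x_nonneg κ M) (by linarith) (by linarith) (by linarith) (by linarith)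
    (x_le h.M_ge a3) (x_le h.M_ge b3)

theorem Rates.hl_le {lam : ℕ → Qb κ M → ℝ} (h : Rates κ M lam) (i : Hd κ M) :
    hl lam i ≤ 1 := by
  obtain ⟨a1, a2, a3⟩ := h (Sum.inl i) 0 (by norm_num)
  obtain ⟨b1, b2, b3⟩ := h (Sum.inl i) 1 (by norm_num)
  exact mul_le_one₀ (by linarith) (by linarith) (by linarith)

theorem Rates.th_dl {lam : ℕ → Qb κ M → ℝ} (h : Rates κ M lam) (i : Bd κ M) :
    th0 κ M ≤ dl lam i := by
  obtain ⟨a1, a2, a3⟩ := h (Sum.inr (Sum.inl i)) 0 (by norm_num)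
  obtain ⟨b1, b2, b3⟩ := h (Sum.inr (Sum.inl i)) 1 (by norm_num)
  obtain ⟨c1, c2, c3⟩ := h (Sum.inr (Sum.inl i)) 2 (by norm_num)
  obtain ⟨d1, d2, d3⟩ := h (Sum.inr (Sum.inl i)) 3 (by norm_num)
  exact th0_le4 (x_nonneg κ M) (by linarith) (by linarith) (by linarith) (by linarith)
    (x_le h.M_ge a3) (x_le h.M_ge b3) (x_le h.M_ge c3) (x_le h.M_ge d3)

theorem Rates.dl_le {lam : ℕ → Qb κ M → ℝ} (h : Rates κ M lam) (i : Bd κ M) :
    dl lam i ≤ 1 := by
  obtain ⟨a1, a2, a3⟩ := h (Sum.inr (Sum.inl i)) 0 (by norm_num)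
  obtain ⟨b1, b2, b3⟩ := h (Sum.inr (Sum.inl i)) 1 (by norm_num)
  obtain ⟨c1, c2, c3⟩ := h (Sum.inr (Sum.inl i)) 2 (by norm_num)
  obtain ⟨d1, d2, d3⟩ := h (Sum.inr (Sum.inl i)) 3 (by norm_num)
  exact mul_le_one₀ (mul_le_one₀ (by linarith) (by linarith) (by linarith))
    (mul_nonneg (by linarith) (by linarith)) (mul_le_one₀ (by linarith) (by linarith) (by linarith))

theorem Rates.abs_hl {lam : ℕ → Qb κ M → ℝ} (h : Rates κ M lam) (i : Hd κ M) :
    |hl lam i| ≤ 1 :=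
  abs_le.2 ⟨by linarith [h.th_hl i, th0_nonneg κ M], h.hl_le i⟩

theorem Rates.abs_dl {lam : ℕ → Qb κ M → ℝ} (h : Rates κ M lam) (i : Bd κ M) :
    |dl lam i| ≤ 1 :=
  abs_le.2 ⟨by linarith [h.th_dl i, th0_nonneg κ M], h.dl_le i⟩

open Classical in
/-- **the probability of a decoding error is at most 1/64** -/
theorem bad_le {lam : ℕ → Qb κ M → ℝ} (h : Rates κ M lam) :
    mext (hl lam) (fun a => mext (dl lam) (fun c =>
      if HGood a ∧ BGood c then (0 : ℝ) else 1)) ≤ 1 / 64 := by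
  have hM := h.M_ge
  have e1 := dec_error (cl := clH κ M) (l := 2 * M) (two_M_le_clH hM) (δ := hl lam)
    (th0_nonneg κ M) h.th_hl h.hl_le (th0_le_one hM)
  have e2 := dec_error (cl := clB κ M) (l := 2 * M) (two_M_le_clB hM) (δ := dl lam)
    (th0_nonneg κ M) h.th_dl h.dl_le (th0_le_one hM)
  rw [Fintype.card_fin] at e1 e2
  have e3 : mext (hl lam) (fun a => mext (dl lam) (fun c =>
      if HGood a ∧ BGood c then (0 : ℝ) else 1)) ≤
      mext (hl lam) (fun a => (if HGood a then (0 : ℝ) else 1) +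
        mext (dl lam) (fun c => if BGood c then (0 : ℝ) else 1)) := by
    refine mext_mono h.abs_hl fun a => ?_
    rw [← mext_const (dl lam) (if HGood a then (0 : ℝ) else 1), ← mext_add]
    refine mext_mono h.abs_dl fun c => ?_
    by_cases ha : HGood a <;> by_cases hc : BGood c <;> simp [ha, hc]
  refine e3.trans ?_
  rw [mext_add, mext_const]
  have e4 : mext (hl lam) (fun a => if HGood a then (0 : ℝ) else 1) ≤
      (κ.length : ℝ) * (1 - th0 κ M ^ 2 / 4) ^ (2 * M) := by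
    convert e1 using 4
    exact Iff.rfl
  have e5 : mext (dl lam) (fun c => if BGood c then (0 : ℝ) else 1) ≤
      ((2 * Pool.Agent.Helper67.EQP.par κ + 6 : ℕ) : ℝ) * (1 - th0 κ M ^ 2 / 4) ^ (2 * M) := by
    convert e2 using 4
    exact Iff.rfl
  have e6 := num_bound (κ := κ) hM
  have e7 : (cls κ : ℝ) = κ.length + ((2 * Pool.Agent.Helper67.EQP.par κ + 6 : ℕ) : ℝ) := by
    unfold cls
    push_cast
    ring
  rw [e7, add_mul] at e6
  linarith

end Pool.Agent.Helper13.NQ
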